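import Pool.Agent.Helper69.GC.Defs

set_option autoImplicit false

/-! Module WORD : degree and leading coefficient of the trace of a word. -/

namespace Pool.Agent.Helper69.GC

open Polynomial

variable {F : Type} [Field F]

theorem word_c0 (W : Mat F) (a b : F) (i : Fin 3) :
    (W * (matA a * matB b)) i 0 =
      W i 0 + C (a ^ 2 / 2 * b) * W i 0 * X + C (a * b) * W i 1 * X + C b * W i 2 * X := by
  simp only [Matrix.mul_apply, Fin.sum_univ_three, matA, matB, Matrix.of_apply, Matrix.cons_val',
    Matrix.cons_val_zero, Matrix.cons_val_one, Matrix.cons_val_two, Matrix.head_cons,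
    Matrix.tail_cons, Matrix.empty_val', Matrix.cons_val_fin_one, Matrix.head_fin_const,
    Matrix.cons_val]
  simp only [C_mul]
  ring

theorem word_c1 (W : Mat F) (a b : F) (i : Fin 3) :
    (W * (matA a * matB b)) i 1 = C a * W i 0 + W i 1 := by
  simp only [Matrix.mul_apply, Fin.sum_univ_three, matA, matB, Matrix.of_apply, Matrix.cons_val',
    Matrix.cons_val_zero, Matrix.cons_val_one, Matrix.cons_val_two, Matrix.head_cons,
    Matrix.tail_cons, Matrix.empty_val', Matrix.cons_val_fin_one, Matrix.head_fin_const,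
    Matrix.cons_val]
  ring

theorem word_c2 (W : Mat F) (a b : F) (i : Fin 3) :
    (W * (matA a * matB b)) i 2 = C (a ^ 2 / 2) * W i 0 + C a * W i 1 + W i 2 := by
  simp only [Matrix.mul_apply, Fin.sum_univ_three, matA, matB, Matrix.of_apply, Matrix.cons_val',
    Matrix.cons_val_zero, Matrix.cons_val_one, Matrix.cons_val_two, Matrix.head_cons,
    Matrix.tail_cons, Matrix.empty_val', Matrix.cons_val_fin_one, Matrix.head_fin_const,
    Matrix.cons_val]
  ring

/-- the degree bound -/
theorem word_deg (a b : ℕ → F) (j : ℕ) : ∀ (i l : Fin 3) (s : ℕ), j < s →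
    (wd a b j i l).coeff s = 0 := by
  induction j with
  | zero =>
    intro i l s hs
    change ((1 : Mat F) i l).coeff s = 0
    rw [Matrix.one_apply]
    split_ifs
    · rw [coeff_one, if_neg (by omega)]
    · simp
  | succ j ih =>
    intro i l s hs
    obtain ⟨s, rfl⟩ : ∃ t, s = t + 1 := ⟨s - 1, by omega⟩
    change ((wd a b j * (matA (a j) * matB (b j))) i l).coeff (s + 1) = 0
    fin_cases l
    · change ((wd a b j * (matA (a j) * matB (b j))) i 0).coeff (s + 1) = 0
      rw [word_c0]
      simp only [coeff_add, coeff_mul_X, coeff_C_mul]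
      rw [ih i 0 (s + 1) (by omega), ih i 0 s (by omega), ih i 1 s (by omega),
        ih i 2 s (by omega)]
      ring
    · change ((wd a b j * (matA (a j) * matB (b j))) i 1).coeff (s + 1) = 0
      rw [word_c1]
      simp only [coeff_add, coeff_C_mul]
      rw [ih i 0 (s + 1) (by omega), ih i 1 (s + 1) (by omega)]
      ring
    · change ((wd a b j * (matA (a j) * matB (b j))) i 2).coeff (s + 1) = 0
      rw [word_c2]
      simp only [coeff_add, coeff_C_mul]
      rw [ih i 0 (s + 1) (by omega), ih i 1 (s + 1) (by omega), ih i 2 (s + 1) (by omega)]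
      ring

/-- the leading coefficients in the columns 1 and 2 vanish -/
theorem word_col (a b : ℕ → F) (j : ℕ) (i : Fin 3) :
    (wd a b (j + 1) i 1).coeff (j + 1) = 0 ∧ (wd a b (j + 1) i 2).coeff (j + 1) = 0 := by
  constructor
  · change ((wd a b j * (matA (a j) * matB (b j))) i 1).coeff (j + 1) = 0
    rw [word_c1]
    simp only [coeff_add, coeff_C_mul]
    rw [word_deg a b j i 0 (j + 1) (by omega), word_deg a b j i 1 (j + 1) (by omega)]
    ring
  · change ((wd a b j * (matA (a j) * matB (b j))) i 2).coeff (j + 1) = 0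
    rw [word_c2]
    simp only [coeff_add, coeff_C_mul]
    rw [word_deg a b j i 0 (j + 1) (by omega), word_deg a b j i 1 (j + 1) (by omega),
      word_deg a b j i 2 (j + 1) (by omega)]
    ring

/-- the leading coefficient in the corner -/
theorem word_corner (a b : ℕ → F) (j : ℕ) :
    (wd a b (j + 1) 0 0).coeff (j + 1) = ∏ i ∈ Finset.range (j + 1), (b i * (a i ^ 2 / 2)) := by
  have key : ∀ j : ℕ, (wd a b (j + 1) 0 0).coeff (j + 1) =
      a j ^ 2 / 2 * b j * (wd a b j 0 0).coeff j + a j * b j * (wd a b j 0 1).coeff j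
        + b j * (wd a b j 0 2).coeff j := by
    intro j
    change ((wd a b j * (matA (a j) * matB (b j))) 0 0).coeff (j + 1) = _
    rw [word_c0]
    simp only [coeff_add, coeff_mul_X, coeff_C_mul]
    rw [word_deg a b j 0 0 (j + 1) (by omega)]
    ring
  induction j with
  | zero =>
    rw [key 0]
    have h0 : wd a b 0 = (1 : Mat F) := rfl
    rw [h0]
    simp
    ring
  | succ j ih =>
    rw [key (j + 1), ih, (word_col a b j 0).1, (word_col a b j 0).2,
      Finset.prod_range_succ _ (j + 1)]
    ring

theorem st_WORD : ST_WORD := by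
  intro F _ a b j hj
  refine ⟨word_deg a b j, ?_⟩
  obtain ⟨j, rfl⟩ : ∃ t, j = t + 1 := ⟨j - 1, by omega⟩
  rw [Matrix.trace, Fin.sum_univ_three]
  simp only [Matrix.diag_apply, coeff_add]
  rw [word_corner, (word_col a b j 1).1, (word_col a b j 2).2]
  ring

end Pool.Agent.Helper69.GC
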